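import Pool.Agent.Helper87.Fuchs.Lsc1

/-!
# Lower semicontinuity of the exponent
-/

namespace Pool.Agent.Helper97.Fuchs

open MeasureTheory Matrix UpperHalfPlane Filter Topology
open scoped MatrixGroups ENNReal BigOperators

noncomputable section

namespace Lsc

/-! ### cluster point of a divergent series -/

lemma exists_cluster {α X : Type*} [TopologicalSpace X] [CompactSpace X] (p : α → X) (W : α → ℝ)
    (hW : ∀ a, 0 ≤ W a) (h : ¬ Summable W) :
    ∃ q : X, ∀ N ∈ 𝓝 q, ¬ Summable (Set.indicator (p ⁻¹' N) W) := by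
  by_contra hc
  push Not at hc
  apply h
  have key : Summable (Set.indicator (p ⁻¹' (Set.univ : Set X)) W) := by
    refine IsCompact.induction_on (p := fun s => Summable (Set.indicator (p ⁻¹' s) W))
      isCompact_univ ?_ ?_ ?_ ?_
    · simp
    · intro s t hst ht
      exact Summable.of_nonneg_of_le (fun a => Set.indicator_nonneg (fun a _ => hW a) a)
        (fun a => Set.indicator_le_indicator_of_subset (Set.preimage_mono hst) hW a) ht
    · intro s t hs ht
      refine Summable.of_nonneg_of_le (fun a => Set.indicator_nonneg (fun a _ => hW a) a)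
        (fun a => ?_) (hs.add ht)
      have h0 := hW a
      by_cases has : p a ∈ s <;> by_cases hat : p a ∈ t <;>
        simp [has, hat, h0]
    · intro x _
      obtain ⟨N, hN, hs⟩ := hc x
      exact ⟨N, mem_nhdsWithin_of_mem_nhds hN, hs⟩
  simpa using key

/-! ### dyadic shells -/

lemma shells {α : Type*} (N : α → ℝ) (hN : ∀ a, 1 ≤ N a) (hfin : ∀ R : ℝ, {a | N a ≤ R}.Finite)
    (C : Set α) {s s' : ℝ} (hs : s' < s)
    (h : ¬ Summable (Set.indicator C fun a => N a ^ (-(2 * s)))) (T₀ M : ℝ) :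
    ∃ T : ℝ, T₀ ≤ T ∧ 0 < T ∧ ∃ S : Finset α, (∀ a ∈ S, a ∈ C ∧ T ≤ N a ∧ N a ≤ 2 * T) ∧
      M < ∑ a ∈ S, N a ^ (-(2 * s')) := by
  classical
  by_contra hc
  push Not at hc
  apply h
  have hpos : ∀ a (r : ℝ), 0 ≤ N a ^ r := fun a r => Real.rpow_nonneg (by linarith [hN a]) _
  set t : α → ℕ := fun a => Nat.log 2 ⌊N a⌋₊ with ht
  have ht1 : ∀ a, (2 : ℝ) ^ t a ≤ N a := by
    intro a
    have h1 : ⌊N a⌋₊ ≠ 0 := by
      have : 1 ≤ ⌊N a⌋₊ := Nat.le_floor (by simpa using hN a)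
      omega
    have h2 := Nat.pow_log_le_self 2 h1
    have h3 : ((2 ^ Nat.log 2 ⌊N a⌋₊ : ℕ) : ℝ) ≤ (⌊N a⌋₊ : ℝ) := by exact_mod_cast h2
    have h4 : (⌊N a⌋₊ : ℝ) ≤ N a := Nat.floor_le (by linarith [hN a])
    push_cast at h3
    linarith
  have ht2 : ∀ a, N a ≤ 2 * (2 : ℝ) ^ t a := by
    intro a
    have h2 := Nat.lt_pow_succ_log_self (b := 2) (by norm_num) ⌊N a⌋₊
    have h3 : (⌊N a⌋₊ : ℝ) + 1 ≤ ((2 ^ (Nat.log 2 ⌊N a⌋₊ + 1) : ℕ) : ℝ) := by exact_mod_cast h2
    have h4 : N a < (⌊N a⌋₊ : ℝ) + 1 := Nat.lt_floor_add_one _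
    push_cast at h3
    rw [pow_succ] at h3
    linarith
  set M' : ℝ := ∑ a ∈ (hfin (2 * T₀)).toFinset, N a ^ (-(2 * s')) with hM'
  have hM'0 : 0 ≤ M' := Finset.sum_nonneg fun a _ => hpos a _
  set M₁ : ℝ := |M| + M' with hM₁
  have hM₁0 : 0 ≤ M₁ := by positivity
  have key : ∀ (k : ℕ) (S : Finset α), (∀ a ∈ S, a ∈ C ∧ t a = k) →
      ∑ a ∈ S, N a ^ (-(2 * s')) ≤ M₁ := by
    intro k S hS
    by_cases hk : T₀ ≤ (2 : ℝ) ^ k
    · have h1 := hc _ hk (by positivity) S (fun a ha => ⟨(hS a ha).1, by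
        rw [← (hS a ha).2]; exact ht1 a, by rw [← (hS a ha).2]; exact ht2 a⟩)
      linarith [le_abs_self M]
    · push Not at hk
      have h1 : ∑ a ∈ S, N a ^ (-(2 * s')) ≤ M' := by
        apply Finset.sum_le_sum_of_subset_of_nonneg
        · intro a ha
          simp only [Set.Finite.mem_toFinset, Set.mem_ofPred_eq]
          have := ht2 a
          rw [(hS a ha).2] at this
          linarith
        · intro a _ _; exact hpos a _
      linarith [abs_nonneg M]
  set q : ℝ := (2 : ℝ) ^ (-(2 * (s - s'))) with hq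
  have hq0 : 0 ≤ q := by positivity
  have hq1 : q < 1 := by
    rw [hq]
    apply Real.rpow_lt_one_of_one_lt_of_neg (by norm_num)
    linarith
  have hterm : ∀ a, N a ^ (-(2 * s)) ≤ N a ^ (-(2 * s')) * q ^ t a := by
    intro a
    have hNp : 0 < N a := by linarith [hN a]
    have e1 : N a ^ (-(2 * s)) = N a ^ (-(2 * s')) * N a ^ (-(2 * (s - s'))) := by
      rw [← Real.rpow_add hNp]; congr 1; ring
    rw [e1]
    apply mul_le_mul_of_nonneg_left _ (hpos a _)
    have h1 : N a ^ (-(2 * (s - s'))) ≤ ((2 : ℝ) ^ t a) ^ (-(2 * (s - s'))) :=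
      Real.rpow_le_rpow_of_nonpos (by positivity) (ht1 a) (by linarith)
    refine le_trans h1 (le_of_eq ?_)
    rw [hq, ← Real.rpow_natCast, ← Real.rpow_mul (by norm_num), ← Real.rpow_natCast,
      ← Real.rpow_mul (by norm_num)]
    congr 1; ring
  have hgeo := summable_geometric_of_lt_one hq0 hq1
  refine summable_of_sum_le (c := M₁ * ∑' n : ℕ, q ^ n) (fun a => Set.indicator_nonneg
    (fun a _ => hpos a _) a) ?_
  intro u
  rw [Finset.sum_indicator_eq_sum_filter]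
  set v := u.filter (fun a => a ∈ C) with hv
  set K := v.sup t + 1 with hK
  have hmaps : ∀ a ∈ v, t a ∈ Finset.range K := by
    intro a ha
    rw [Finset.mem_range, hK]
    have := Finset.le_sup (f := t) ha
    omega
  rw [← Finset.sum_fiberwise_of_maps_to hmaps]
  have h1 : ∀ k ∈ Finset.range K, ∑ a ∈ v with t a = k, N a ^ (-(2 * s)) ≤ M₁ * q ^ k := by
    intro k _
    have h2 : ∑ a ∈ v with t a = k, N a ^ (-(2 * s)) ≤
        ∑ a ∈ v with t a = k, N a ^ (-(2 * s')) * q ^ k := by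
      apply Finset.sum_le_sum
      intro a ha
      have := hterm a
      rw [(Finset.mem_filter.1 ha).2] at this
      exact this
    rw [← Finset.sum_mul] at h2
    refine le_trans h2 ?_
    apply mul_le_mul_of_nonneg_right _ (by positivity)
    apply key k
    intro a ha
    rw [Finset.mem_filter, hv, Finset.mem_filter] at ha
    exact ⟨ha.1.2, ha.2⟩
  refine le_trans (Finset.sum_le_sum h1) ?_
  rw [← Finset.mul_sum]
  apply mul_le_mul_of_nonneg_left _ hM₁0
  exact hgeo.sum_le_tsum _ (fun i _ => by positivity)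

/-! ### greedy separation -/

lemma greedy {α : Type*} (r : α → α → Prop) (hr : ∀ a, r a a)
    (hsymm : ∀ a b, r a b → r b a) (W : α → ℝ) {κ : ℝ} (D : ℕ) (S : Finset α)
    (hW : ∀ a ∈ S, ∀ b ∈ S, W b ≤ κ * W a)
    (hD : ∀ a ∈ S, {b | b ∈ S ∧ r a b}.ncard ≤ D) (hκ : 0 ≤ κ) (hW0 : ∀ a, 0 ≤ W a) :
    ∃ F ⊆ S, (∀ a ∈ F, ∀ b ∈ F, a ≠ b → ¬ r a b) ∧
      ∑ a ∈ S, W a ≤ D * κ * ∑ a ∈ F, W a := by
  classical
  induction S using Finset.strongInduction with
  | H S ih =>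
    rcases S.eq_empty_or_nonempty with rfl | ⟨a, ha⟩
    · exact ⟨∅, Finset.Subset.refl _, by simp, by simp⟩
    · set S' := S.filter (fun b => ¬ r a b) with hS'
      have hss : S' ⊂ S := by
        refine ⟨Finset.filter_subset _ _, fun hsub => ?_⟩
        have := hsub ha
        rw [hS', Finset.mem_filter] at this
        exact this.2 (hr a)
      have hsub : S' ⊆ S := hss.1
      obtain ⟨F, hF, hF1, hF2⟩ := ih S' hss
        (fun x hx y hy => hW x (hsub hx) y (hsub hy))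
        (fun x hx => by
          refine le_trans (Set.ncard_le_ncard (t := {b | b ∈ S ∧ r x b}) ?_ ?_) (hD x (hsub hx))
          · intro y hy
            exact ⟨hsub hy.1, hy.2⟩
          · exact (Finset.finite_toSet S).subset fun y hy => hy.1)
      have haF : a ∉ F := fun h => by
        have := hF h
        rw [hS', Finset.mem_filter] at this
        exact this.2 (hr a)
      refine ⟨insert a F, ?_, ?_, ?_⟩
      · intro x hx
        rcases Finset.mem_insert.1 hx with rfl | hx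
        · exact ha
        · exact hsub (hF hx)
      · intro x hx y hy hxy
        rcases Finset.mem_insert.1 hx with hx | hx
        · rcases Finset.mem_insert.1 hy with hy | hy
          · exact absurd (hx.trans hy.symm) hxy
          · have := hF hy
            rw [hS', Finset.mem_filter] at this
            rw [hx]
            exact this.2
        · rcases Finset.mem_insert.1 hy with hy | hy
          · have := hF hx
            rw [hS', Finset.mem_filter] at this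
            rw [hy]
            exact fun h => this.2 (hsymm _ _ h)
          · exact hF1 x hx y hy hxy
      · rw [Finset.sum_insert haF, ← Finset.sum_filter_add_sum_filter_not S (fun b => r a b)]
        have h1 : ∑ x ∈ S with r a x, W x ≤ D * (κ * W a) := by
          have h2 : ∑ x ∈ S with r a x, W x ≤ ∑ x ∈ S with r a x, κ * W a :=
            Finset.sum_le_sum fun x hx => hW a ha x (Finset.mem_filter.1 hx).1
          rw [Finset.sum_const, nsmul_eq_mul] at h2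
          refine le_trans h2 ?_
          apply mul_le_mul_of_nonneg_right _ (mul_nonneg hκ (hW0 a))
          have h3 := hD a ha
          have h4 : {b | b ∈ S ∧ r a b} = ((S.filter (fun b => r a b) : Finset α) : Set α) := by
            ext b; simp
          rw [h4, Set.ncard_coe_finset] at h3
          exact_mod_cast h3
        have h5 : D * κ * (W a + ∑ x ∈ F, W x) = D * (κ * W a) + D * κ * ∑ x ∈ F, W x := by ring
        rw [h5]
        exact add_le_add h1 hF2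

/-! ### words in a ping-pong family -/

lemma wedge_self (z : ℂ) : wedge z z = 0 := by simp only [wedge]; ring

lemma wedge_smul_left (t : ℝ) (z w : ℂ) : wedge ((t : ℂ) * z) w = t * wedge z w := by
  simp only [wedge, Complex.mul_re, Complex.mul_im, Complex.ofReal_re, Complex.ofReal_im]; ring

lemma wedge_smul_right (t : ℝ) (z w : ℂ) : wedge z ((t : ℂ) * w) = t * wedge z w := by
  simp only [wedge, Complex.mul_re, Complex.mul_im, Complex.ofReal_re, Complex.ofReal_im]; ring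

/-- the unit vectors of the cone -/
def K (y₀ : S1) (η : ℝ) : Set ℂ := {x | ‖x‖ = 1 ∧ η ≤ |wedge x y₀|}

lemma continuous_wedge : Continuous fun p : ℂ × ℂ => wedge p.1 p.2 := by
  unfold wedge
  fun_prop

lemma isCompact_K (y₀ : S1) (η : ℝ) : IsCompact (K y₀ η) := by
  have h1 : IsCompact (Metric.sphere (0 : ℂ) 1) := isCompact_sphere _ _
  have h2 : IsClosed {x : ℂ | η ≤ |wedge x y₀|} := by
    apply isClosed_le continuous_const
    exact (continuous_wedge.comp (continuous_id.prodMk continuous_const)).abs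
  have h3 : K y₀ η = Metric.sphere (0 : ℂ) 1 ∩ {x : ℂ | η ≤ |wedge x y₀|} := by
    ext x; simp [K]
  rw [h3]
  exact h1.inter_right h2

lemma nonempty_K (y₀ : S1) {η : ℝ} (hη : η ≤ 1) : (K y₀ η).Nonempty := by
  refine ⟨Complex.I * y₀, by simp, ?_⟩
  have h : wedge (Complex.I * y₀) y₀ = -1 := by
    have h1 : ‖(y₀ : ℂ)‖ ^ 2 = 1 := by rw [S1_norm]; norm_num
    rw [sq_norm'] at h1
    simp only [wedge, Complex.mul_re, Complex.mul_im, Complex.I_re, Complex.I_im]
    linarith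
  rw [h]; simpa using hη

/-- the cone -/
def Cn (y₀ : S1) (η : ℝ) : Set ℂ := {x | x ≠ 0 ∧ η * ‖x‖ ≤ |wedge x y₀|}

lemma exists_K {y₀ : S1} {η : ℝ} {x : ℂ} (hx : x ∈ Cn y₀ η) :
    ∃ z ∈ K y₀ η, x = (‖x‖ : ℂ) * z := by
  obtain ⟨h0, h1⟩ := hx
  have hn : 0 < ‖x‖ := norm_pos_iff.2 h0
  have hn' : (‖x‖ : ℂ) ≠ 0 := by exact_mod_cast hn.ne'
  have e : x = (‖x‖ : ℂ) * (x / (‖x‖ : ℂ)) := by field_simp
  refine ⟨x / (‖x‖ : ℂ), ⟨?_, ?_⟩, e⟩
  · rw [norm_div, Complex.norm_real, norm_norm, div_self hn.ne']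
  · have h2 : |wedge x y₀| = ‖x‖ * |wedge (x / (‖x‖ : ℂ)) y₀| := by
      conv_lhs => rw [e]
      rw [wedge_smul_left, abs_mul, abs_of_pos hn]
    have h3 : ‖x‖ * η ≤ ‖x‖ * |wedge (x / (‖x‖ : ℂ)) y₀| := by linarith
    exact le_of_mul_le_mul_left h3 hn

variable {ι : Type} [Fintype ι]

lemma word_inj {y₀ : S1} {η : ℝ} (hη : η ≤ 1) (f : ι → SL(2, ℝ))
    (hinc : ∀ i, ∀ x ∈ K y₀ η, η * ‖lin (f i) x‖ < |wedge (lin (f i) x) y₀|)
    (hdis : ∀ i j, i ≠ j → ∀ p ∈ K y₀ η ×ˢ K y₀ η, wedge (lin (f i) p.1) (lin (f j) p.2) ≠ 0)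
    (k : ℕ) : Function.Injective fun u : Fin k → ι => word f u := by
  have hinc' : ∀ i, ∀ x ∈ Cn y₀ η, lin (f i) x ∈ Cn y₀ η := by
    intro i x hx
    obtain ⟨z, hz, e⟩ := exists_K hx
    refine ⟨lin_ne_zero hx.1, ?_⟩
    have h1 := hinc i z hz
    have hn : 0 ≤ ‖x‖ := norm_nonneg x
    have e2 : lin (f i) x = (‖x‖ : ℂ) * lin (f i) z := by
      conv_lhs => rw [e]
      rw [lin_smul]
    rw [e2, wedge_smul_left, norm_mul, Complex.norm_real, norm_norm, abs_mul, abs_of_nonneg hn]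
    nlinarith
  have hdis' : ∀ i j, i ≠ j → ∀ x ∈ Cn y₀ η, ∀ x' ∈ Cn y₀ η,
      wedge (lin (f i) x) (lin (f j) x') ≠ 0 := by
    intro i j hij x hx x' hx'
    obtain ⟨z, hz, e⟩ := exists_K hx
    obtain ⟨z', hz', e'⟩ := exists_K hx'
    have h1 := hdis i j hij (z, z') ⟨hz, hz'⟩
    have e2 : lin (f i) x = (‖x‖ : ℂ) * lin (f i) z := by
      conv_lhs => rw [e]
      rw [lin_smul]
    have e2' : lin (f j) x' = (‖x'‖ : ℂ) * lin (f j) z' := by
      conv_lhs => rw [e']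
      rw [lin_smul]
    rw [e2, e2', wedge_smul_left, wedge_smul_right]
    have hn : ‖x‖ ≠ 0 := norm_ne_zero_iff.2 hx.1
    have hn' : ‖x'‖ ≠ 0 := norm_ne_zero_iff.2 hx'.1
    simp only at h1
    positivity
  have hword : ∀ (k : ℕ) (u : Fin k → ι), ∀ x ∈ Cn y₀ η, lin (word f u) x ∈ Cn y₀ η := by
    intro k
    induction k with
    | zero => intro u x hx; simpa using hx
    | succ k ih =>
      intro u x hx
      rw [word_succ, lin_mul]
      exact hinc' _ _ (ih _ x hx)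
  obtain ⟨x, hx⟩ := nonempty_K y₀ hη
  have hxC : x ∈ Cn y₀ η := by
    refine ⟨fun h0 => ?_, ?_⟩
    · have := hx.1; simp [h0] at this
    · rw [hx.1, mul_one]; exact hx.2
  induction k with
  | zero => intro u v _; exact Subsingleton.elim _ _
  | succ k ih =>
    intro u v huv
    simp only at huv
    rw [word_succ, word_succ] at huv
    have h0 : u 0 = v 0 := by
      by_contra hne
      have h1 := hdis' _ _ hne _ (hword k (fun j => u j.succ) x hxC) _
        (hword k (fun j => v j.succ) x hxC)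
      rw [← lin_mul, ← lin_mul, huv, wedge_self] at h1
      exact h1 rfl
    rw [h0] at huv
    have h1 := ih (mul_left_cancel huv)
    funext j
    refine Fin.cases h0 (fun i => congrFun h1 i) j

lemma nrm_word_le (f : ι → SL(2, ℝ)) (k : ℕ) (u : Fin k → ι) (hk : 1 ≤ k) :
    nrm (word f u) ≤ ∏ j, nrm (f (u j)) := by
  induction k with
  | zero => omega
  | succ k ih =>
    rw [word_succ, Fin.prod_univ_succ]
    rcases Nat.eq_zero_or_pos k with rfl | hk'
    · simp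
    · refine le_trans (nrm_mul_le _ _) ?_
      exact mul_le_mul_of_nonneg_left (ih _ hk') (nrm_nonneg _)

lemma not_summable_of_pingpong {Γ : Subgroup SL(2, ℝ)} {y₀ : S1} {η : ℝ} (hη : η ≤ 1)
    (f : ι → SL(2, ℝ)) (hf : ∀ i, f i ∈ Γ)
    (hinc : ∀ i, ∀ x ∈ K y₀ η, η * ‖lin (f i) x‖ < |wedge (lin (f i) x) y₀|)
    (hdis : ∀ i j, i ≠ j → ∀ p ∈ K y₀ η ×ˢ K y₀ η, wedge (lin (f i) p.1) (lin (f j) p.2) ≠ 0)
    {s' : ℝ} (h0 : 0 ≤ s') (hsum : 2 < ∑ i, nrm (f i) ^ (-(2 * s'))) :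
    ¬ Summable fun g : Γ => nrm (g : SL(2, ℝ)) ^ (-(2 * s')) := by
  intro hS
  have hmem : ∀ (k : ℕ) (u : Fin k → ι), word f u ∈ Γ := by
    intro k u
    unfold word
    refine Subgroup.list_prod_mem _ ?_
    intro x hx
    rw [List.mem_ofFn] at hx
    obtain ⟨k, rfl⟩ := hx
    exact hf _
  have hbound : ∀ k : ℕ, 1 ≤ k →
      (2 : ℝ) ^ k ≤ ∑' g : Γ, nrm (g : SL(2, ℝ)) ^ (-(2 * s')) := by
    intro k hk
    let φ : (Fin k → ι) ↪ Γ := ⟨fun u => ⟨word f u, hmem k u⟩, fun u v huv =>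
      word_inj hη f hinc hdis k (by simpa using huv)⟩
    have h1 : ∑ u : Fin k → ι, nrm (word f u) ^ (-(2 * s')) ≤
        ∑' g : Γ, nrm (g : SL(2, ℝ)) ^ (-(2 * s')) := by
      have h2 := hS.sum_le_tsum (Finset.univ.map φ)
        (fun g _ => Real.rpow_nonneg (nrm_nonneg _) _)
      rw [Finset.sum_map] at h2
      exact h2
    refine le_trans ?_ h1
    have h2 : (2 : ℝ) ^ k ≤ (∑ i, nrm (f i) ^ (-(2 * s'))) ^ k :=
      pow_le_pow_left₀ (by norm_num) hsum.le k
    refine le_trans h2 ?_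
    rw [Fintype.sum_pow]
    apply Finset.sum_le_sum
    intro u _
    rw [Real.finsetProd_rpow _ _ (fun i _ => nrm_nonneg _)]
    exact Real.rpow_le_rpow_of_nonpos (nrm_pos _) (nrm_word_le f k u hk) (by linarith)
  obtain ⟨k, hk⟩ := pow_unbounded_of_one_lt (∑' g : Γ, nrm (g : SL(2, ℝ)) ^ (-(2 * s')))
    (by norm_num : (1 : ℝ) < 2)
  have h1 := hbound (k + 1) (by omega)
  have h2 : (2 : ℝ) ^ k ≤ 2 ^ (k + 1) := pow_le_pow_right₀ (by norm_num) (by omega)
  linarith

lemma continuous_nrm : Continuous nrm := by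
  have h : ∀ i j : Fin 2, Continuous (fun p : SL(2, ℝ) => p i j) := by
    intro i j
    have h1 : Continuous (fun p : SL(2, ℝ) => p i) := by fun_prop
    exact (continuous_apply j).comp h1
  unfold nrm
  exact (((((h 0 0).pow 2).add ((h 0 1).pow 2)).add ((h 1 0).pow 2)).add ((h 1 1).pow 2)).sqrt

end Lsc

open Lsc in
theorem exponent_lsc {ε : ℝ} {Γ : Subgroup SL(2, ℝ)} (hd : Disc ε Γ) {Γn : ℕ → Subgroup SL(2, ℝ)}
    (hlim : ∀ g ∈ Γ, ∃ gn : ℕ → SL(2, ℝ), (∀ n, gn n ∈ Γn n) ∧ Tendsto gn atTop (𝓝 g))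
    (hsep : ∀ x y : ℂ, x ≠ 0 → y ≠ 0 → ∃ b ∈ Γ, wedge (lin b x) y ≠ 0)
    {s s' : ℝ} (h0 : 0 ≤ s') (hs : s' < s)
    (hns : ¬ Summable fun g : Γ => nrm (g : SL(2, ℝ)) ^ (-(2 * s))) :
    ∀ᶠ n in atTop, ¬ Summable fun g : Γn n => nrm (g : SL(2, ℝ)) ^ (-(2 * s')) := by
  classical
  -- cluster directions
  obtain ⟨⟨x₀, y₀⟩, hq⟩ := exists_cluster
    (fun g : Γ => ((uu (g : SL(2, ℝ)), yy (g : SL(2, ℝ))) : S1 × S1))
    (fun g : Γ => nrm (g : SL(2, ℝ)) ^ (-(2 * s)))
    (fun g => Real.rpow_nonneg (nrm_nonneg _) _) hns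
  obtain ⟨b, hb, hw⟩ := hsep x₀ y₀ (S1_ne_zero _) (S1_ne_zero _)
  set w₀ : ℝ := |wedge (lin b x₀) y₀| with hw₀
  have hw0 : 0 < w₀ := abs_pos.2 hw
  have hbp := nrm_pos b
  set η : ℝ := w₀ / (4 * nrm b) with hη
  have hη0 : 0 < η := by positivity
  have hηw : η * (4 * nrm b) = w₀ := by rw [hη]; field_simp
  have hη1 : η ≤ 1 := by
    rw [hη, div_le_one (by positivity)]
    have h1 := abs_wedge_le (lin b x₀) y₀
    have h2 := norm_lin_le b (x₀ : ℂ)
    rw [S1_norm, mul_one] at h1 h2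
    linarith
  set N : Set (S1 × S1) := {p | ‖(p.1 : ℂ) - x₀‖ < η / 2 ∧ ‖(p.2 : ℂ) - y₀‖ < η / 2} with hN
  have hNn : N ∈ 𝓝 (x₀, y₀) := by
    apply IsOpen.mem_nhds
    · have c1 : Continuous fun p : S1 × S1 => ‖(p.1 : ℂ) - x₀‖ := by fun_prop
      have c2 : Continuous fun p : S1 × S1 => ‖(p.2 : ℂ) - y₀‖ := by fun_prop
      exact (isOpen_lt c1 continuous_const).inter (isOpen_lt c2 continuous_const)
    · simp [hN, hη0]
  have hns' := hq N hNn
  -- finiteness of balls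
  have hfin : ∀ R : ℝ, {g : Γ | nrm (g : SL(2, ℝ)) ≤ R}.Finite := by
    intro R
    refine Set.Finite.of_injOn (f := fun g : Γ => (g : SL(2, ℝ))) ?_
      (Subtype.val_injective.injOn) (finite_ball hd R)
    intro g hg
    exact ⟨g.2, hg⟩
  set D : ℕ := {g : SL(2, ℝ) | g ∈ Γ ∧ nrm g ≤ R1 η}.ncard with hD
  set κ : ℝ := 2 ^ (2 * s') with hκ
  have hκ0 : 0 < κ := by positivity
  obtain ⟨T, hT₀, hT, S, hS, hSM⟩ := shells (fun g : Γ => nrm (g : SL(2, ℝ)))
    (fun g => one_le_nrm _) hfin _ hs hns' (4 / η) (D * κ * (2 * nrm b ^ (2 * s')))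
  obtain ⟨F, hFS, hF1, hF2⟩ := greedy
    (fun g g' : Γ => nrm ((g : SL(2, ℝ))⁻¹ * g') ≤ R1 η)
    (fun g => by
      rw [inv_mul_cancel]
      have h1 : nrm (1 : SL(2, ℝ)) ≤ 2 := by
        have := nrm_sq (1 : SL(2, ℝ))
        simp at this
        nlinarith [nrm_nonneg (1 : SL(2, ℝ))]
      have h2 : 2 ≤ R1 η := by
        unfold R1
        have : 1 ≤ 2 / η := by rw [le_div_iff₀ hη0]; linarith
        have h3 : 0 < 8 / η := by positivity
        nlinarith
      linarith)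
    (fun g g' h => by
      rw [← nrm_inv, _root_.mul_inv_rev, inv_inv]; exact h)
    (fun g : Γ => nrm (g : SL(2, ℝ)) ^ (-(2 * s'))) (κ := κ) D S
    (fun g hg g' hg' => by
      have h1 := hS g hg
      have h2 := hS g' hg'
      have e1 : κ * nrm (g : SL(2, ℝ)) ^ (-(2 * s')) =
          (nrm (g : SL(2, ℝ)) / 2) ^ (-(2 * s')) := by
        rw [Real.div_rpow (nrm_nonneg _) (by norm_num), hκ, Real.rpow_neg (by norm_num : (0:ℝ) ≤ 2),
          div_inv_eq_mul, mul_comm]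
      rw [e1]
      apply Real.rpow_le_rpow_of_nonpos (by have := nrm_pos (g : SL(2, ℝ)); positivity) _
        (by linarith)
      linarith [h1.2.2, h2.2.1])
    (fun g hg => by
      refine Set.ncard_le_ncard_of_injOn (fun g' : Γ => (g : SL(2, ℝ))⁻¹ * g') ?_ ?_
        (finite_ball hd _)
      · intro g' hg'
        exact ⟨mul_mem (inv_mem g.2) g'.2, hg'.2⟩
      · intro a _ a' _ haa
        exact Subtype.ext (mul_left_cancel haa))
    hκ0.le (fun g => Real.rpow_nonneg (nrm_nonneg _) _)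
  have hDκ : 2 * nrm b ^ (2 * s') < ∑ g ∈ F, nrm (g : SL(2, ℝ)) ^ (-(2 * s')) := by
    have h1 := lt_of_lt_of_le hSM hF2
    exact lt_of_mul_lt_mul_left h1 (by positivity)
  -- the ping-pong family
  let f : F → SL(2, ℝ) := fun g => b * (g : Γ)
  have hfΓ : ∀ i, f i ∈ Γ := fun i => mul_mem hb (i : Γ).2
  have hclass : ∀ i : F, ‖(uu ((i : Γ) : SL(2, ℝ)) : ℂ) - x₀‖ ≤ η / 2 ∧
      ‖(yy ((i : Γ) : SL(2, ℝ)) : ℂ) - y₀‖ ≤ η / 2 ∧ T ≤ nrm ((i : Γ) : SL(2, ℝ)) ∧
      nrm ((i : Γ) : SL(2, ℝ)) ≤ 2 * T := by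
    intro i
    obtain ⟨h1, h2, h3⟩ := hS _ (hFS i.2)
    exact ⟨h1.1.le, h1.2.le, h2, h3⟩
  have hinc : ∀ i, ∀ x ∈ K y₀ η, η * ‖lin (f i) x‖ < |wedge (lin (f i) x) y₀| := by
    intro i x hx
    obtain ⟨h1, h2, h3, h4⟩ := hclass i
    exact cone_incl hη0 rfl hηw hx.1 hx.2 h2 h1 (le_trans hT₀ h3)
  have hdis : ∀ i j, i ≠ j → ∀ p ∈ K y₀ η ×ˢ K y₀ η,
      wedge (lin (f i) p.1) (lin (f j) p.2) ≠ 0 := by
    intro i j hij p hp
    obtain ⟨h1, h2, h3, h4⟩ := hclass i
    obtain ⟨h1', h2', h3', h4'⟩ := hclass j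
    have h5 := hF1 _ i.2 _ j.2 (fun h => hij (Subtype.ext h))
    push Not at h5
    exact disjoint_cone hη0 hp.1.1 hp.1.2 hp.2.1 hp.2.2 h2 h2' hT h3 h4 h3' h4' h5
  have hsum : 2 < ∑ i, nrm (f i) ^ (-(2 * s')) := by
    have h1 : ∀ i : F, nrm b ^ (-(2 * s')) * nrm ((i : Γ) : SL(2, ℝ)) ^ (-(2 * s')) ≤
        nrm (f i) ^ (-(2 * s')) := by
      intro i
      rw [← Real.mul_rpow (nrm_nonneg _) (nrm_nonneg _)]
      exact Real.rpow_le_rpow_of_nonpos (nrm_pos _) (nrm_mul_le _ _) (by linarith)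
    have h2 : ∑ i : F, nrm b ^ (-(2 * s')) * nrm ((i : Γ) : SL(2, ℝ)) ^ (-(2 * s')) ≤
        ∑ i, nrm (f i) ^ (-(2 * s')) := Finset.sum_le_sum fun i _ => h1 i
    rw [← Finset.mul_sum] at h2
    have h3 : ∑ i : F, nrm ((i : Γ) : SL(2, ℝ)) ^ (-(2 * s')) =
        ∑ g ∈ F, nrm (g : SL(2, ℝ)) ^ (-(2 * s')) :=
      Finset.sum_coe_sort F (fun g : Γ => nrm (g : SL(2, ℝ)) ^ (-(2 * s')))
    rw [h3] at h2
    have h4 : 2 = nrm b ^ (-(2 * s')) * (2 * nrm b ^ (2 * s')) := by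
      rw [Real.rpow_neg (nrm_nonneg _)]
      have : nrm b ^ (2 * s') ≠ 0 := (Real.rpow_pos_of_pos hbp _).ne'
      field_simp
    have h5 : nrm b ^ (-(2 * s')) * (2 * nrm b ^ (2 * s')) <
        nrm b ^ (-(2 * s')) * ∑ g ∈ F, nrm (g : SL(2, ℝ)) ^ (-(2 * s')) :=
      mul_lt_mul_of_pos_left hDκ (Real.rpow_pos_of_pos hbp _)
    linarith
  -- approximations
  choose gn hgn hgt using fun i : F => hlim (f i) (hfΓ i)
  have E1 : ∀ᶠ n in atTop, 2 < ∑ i, nrm (gn i n) ^ (-(2 * s')) := by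
    have h1 : Tendsto (fun n => ∑ i, nrm (gn i n) ^ (-(2 * s'))) atTop
        (𝓝 (∑ i, nrm (f i) ^ (-(2 * s')))) := by
      apply tendsto_finsetSum
      intro i _
      exact ((continuous_nrm.tendsto _).comp (hgt i)).rpow_const (Or.inl (nrm_pos _).ne')
    exact h1.eventually (lt_mem_nhds hsum)
  have E2 : ∀ᶠ n in atTop, ∀ i, ∀ x ∈ K y₀ η,
      η * ‖lin (gn i n) x‖ < |wedge (lin (gn i n) x) y₀| := by
    rw [eventually_all]
    intro i
    have h1 : ∀ᶠ a in 𝓝 (f i), ∀ x ∈ K y₀ η, η * ‖lin a x‖ < |wedge (lin a x) y₀| := by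
      apply (isCompact_K y₀ η).eventually_forall_of_forall_eventually
        (P := fun a x => η * ‖lin a x‖ < |wedge (lin a x) y₀|)
      intro x hx
      have ho : IsOpen {p : SL(2, ℝ) × ℂ | η * ‖lin p.1 p.2‖ < |wedge (lin p.1 p.2) y₀|} := by
        apply isOpen_lt
        · exact continuous_const.mul continuous_lin.norm
        · exact (continuous_wedge.comp (continuous_lin.prodMk continuous_const)).abs
      exact ho.mem_nhds (hinc i x hx)
    exact (hgt i).eventually h1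
  have E3 : ∀ᶠ n in atTop, ∀ i j, i ≠ j → ∀ p ∈ K y₀ η ×ˢ K y₀ η,
      wedge (lin (gn i n) p.1) (lin (gn j n) p.2) ≠ 0 := by
    rw [eventually_all]
    intro i
    rw [eventually_all]
    intro j
    by_cases hij : i = j
    · exact Eventually.of_forall fun n h => absurd hij h
    · have h1 : ∀ᶠ a in 𝓝 (f i, f j), ∀ p ∈ K y₀ η ×ˢ K y₀ η,
          wedge (lin a.1 p.1) (lin a.2 p.2) ≠ 0 := by
        apply ((isCompact_K y₀ η).prod (isCompact_K y₀ η)).eventually_forall_of_forall_eventually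
          (P := fun (a : SL(2, ℝ) × SL(2, ℝ)) (p : ℂ × ℂ) =>
            wedge (lin a.1 p.1) (lin a.2 p.2) ≠ 0)
        intro p hp
        have ho : IsOpen {q : (SL(2, ℝ) × SL(2, ℝ)) × (ℂ × ℂ) |
            wedge (lin q.1.1 q.2.1) (lin q.1.2 q.2.2) ≠ 0} := by
          have c1 : Continuous fun q : (SL(2, ℝ) × SL(2, ℝ)) × (ℂ × ℂ) => lin q.1.1 q.2.1 :=
            continuous_lin.comp ((continuous_fst.comp continuous_fst).prodMk
              (continuous_fst.comp continuous_snd))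
          have c2 : Continuous fun q : (SL(2, ℝ) × SL(2, ℝ)) × (ℂ × ℂ) => lin q.1.2 q.2.2 :=
            continuous_lin.comp ((continuous_snd.comp continuous_fst).prodMk
              (continuous_snd.comp continuous_snd))
          exact isOpen_ne_fun (continuous_wedge.comp (c1.prodMk c2)) continuous_const
        exact ho.mem_nhds (hdis i j hij p hp)
      have h2 := ((hgt i).prodMk_nhds (hgt j)).eventually h1
      filter_upwards [h2] with n hn _
      exact hn
  filter_upwards [E1, E2, E3] with n e1 e2 e3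
  exact not_summable_of_pingpong hη1 (fun i => gn i n) (fun i => hgn i n) e2 e3 h0 e1

end

end Pool.Agent.Helper97.Fuchs
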