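import Pool.Agent.Helper97.Fuchs.Base

/-!
# Lower semicontinuity of the exponent: linear algebra
-/

namespace Pool.Agent.Helper97.Fuchs

open MeasureTheory Matrix UpperHalfPlane Filter Topology
open scoped MatrixGroups ENNReal BigOperators

noncomputable section

namespace Lsc

/-- inner product -/
def ip (z w : ℂ) : ℝ := z.re * w.re + z.im * w.im

lemma sq_norm' (z : ℂ) : ‖z‖ ^ 2 = z.re ^ 2 + z.im ^ 2 := by
  rw [Complex.sq_norm, Complex.normSq_apply]; ring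

lemma ip_sq_add (z w : ℂ) : wedge z w ^ 2 + ip z w ^ 2 = ‖z‖ ^ 2 * ‖w‖ ^ 2 := wedge_sq_add z w

lemma abs_ip_le (z w : ℂ) : |ip z w| ≤ ‖z‖ * ‖w‖ := by
  have h : (ip z w) ^ 2 ≤ (‖z‖ * ‖w‖) ^ 2 := by
    rw [mul_pow, ← ip_sq_add]; nlinarith [sq_nonneg (wedge z w)]
  exact abs_le_of_sq_le_sq h (by positivity)

lemma wedge_swap (z w : ℂ) : wedge w z = - wedge z w := by simp only [wedge]; ring

lemma wedge_sub_left (a b c : ℂ) : wedge (a - b) c = wedge a c - wedge b c := by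
  simp only [wedge, Complex.sub_re, Complex.sub_im]; ring

lemma wedge_sub_right (a b c : ℂ) : wedge a (b - c) = wedge a b - wedge a c := by
  simp only [wedge, Complex.sub_re, Complex.sub_im]; ring

lemma lin_sub (g : SL(2, ℝ)) (z w : ℂ) : lin g (z - w) = lin g z - lin g w := by
  rw [sub_eq_add_neg, lin_add, lin_neg, ← sub_eq_add_neg]

/-- Plücker-type identity -/
lemma wedge_expand (z u w : ℂ) (hu : ‖u‖ = 1) :
    wedge z w = ip z u * wedge u w + wedge z u * ip u w := by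
  have h : u.re ^ 2 + u.im ^ 2 = 1 := by rw [← sq_norm', hu]; norm_num
  simp only [wedge, ip]
  linear_combination (-(z.re * w.im - z.im * w.re)) * h

lemma wedge_lower (z u w : ℂ) (hu : ‖u‖ = 1) :
    ‖z‖ * |wedge u w| - 2 * |wedge z u| * ‖w‖ ≤ |wedge z w| := by
  have h1 : ‖z‖ ≤ |ip z u| + |wedge z u| := by
    have h := ip_sq_add z u
    rw [hu] at h
    have : ‖z‖ ^ 2 ≤ (|ip z u| + |wedge z u|) ^ 2 := by
      have h2 : ‖z‖ ^ 2 = |ip z u| ^ 2 + |wedge z u| ^ 2 := by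
        rw [sq_abs, sq_abs]; linarith
      nlinarith [abs_nonneg (ip z u), abs_nonneg (wedge z u)]
    exact le_of_sq_le_sq' this (by positivity)
  have h2 : |ip z u| * |wedge u w| - |wedge z u| * ‖w‖ ≤ |wedge z w| := by
    rw [wedge_expand z u w hu]
    have h3 : |wedge z u * ip u w| ≤ |wedge z u| * ‖w‖ := by
      rw [abs_mul]
      have := abs_ip_le u w
      rw [hu, one_mul] at this
      exact mul_le_mul_of_nonneg_left this (abs_nonneg _)
    have h4 : |ip z u| * |wedge u w| = |ip z u * wedge u w| := (abs_mul _ _).symm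
    have h5 := abs_sub_abs_le_abs_add (ip z u * wedge u w) (wedge z u * ip u w)
    linarith
  have h3 : |wedge u w| ≤ ‖w‖ := by
    have := abs_wedge_le u w
    rwa [hu, one_mul] at this
  have h4 : (‖z‖ - |wedge z u|) * |wedge u w| ≤ |ip z u| * |wedge u w| :=
    mul_le_mul_of_nonneg_right (by linarith) (abs_nonneg _)
  have h5 : |wedge z u| * |wedge u w| ≤ |wedge z u| * ‖w‖ :=
    mul_le_mul_of_nonneg_left h3 (abs_nonneg _)
  nlinarith

lemma nrm_sq_cols (g : SL(2, ℝ)) : ‖lin g 1‖ ^ 2 + ‖lin g Complex.I‖ ^ 2 = nrm g ^ 2 := by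
  rw [nrm_sq, sq_norm', sq_norm']
  simp [lin]
  ring

lemma exists_col (g : SL(2, ℝ)) : ∃ e : ℂ, ‖e‖ = 1 ∧ nrm g ≤ 2 * ‖lin g e‖ := by
  have h := nrm_sq_cols g
  by_cases h1 : nrm g ≤ 2 * ‖lin g 1‖
  · exact ⟨1, by simp, h1⟩
  · refine ⟨Complex.I, by simp, ?_⟩
    by_contra h2
    push Not at h1 h2
    nlinarith [norm_nonneg (lin g 1), norm_nonneg (lin g Complex.I), nrm_pos g]

lemma exists_u (g : SL(2, ℝ)) : ∃ u : S1, ∀ x : ℂ, |wedge (lin g x) u| * nrm g ≤ 2 * ‖x‖ := by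
  obtain ⟨e, he, h⟩ := exists_col g
  have he0 : e ≠ 0 := by intro h0; simp [h0] at he
  have hc : lin g e ≠ 0 := lin_ne_zero he0
  have hc' : 0 < ‖lin g e‖ := norm_pos_iff.2 hc
  refine ⟨circ g ⟨e, by simp [he]⟩, fun x => ?_⟩
  have h1 : |wedge (lin g x) (circ g ⟨e, by simp [he]⟩ : S1)| * ‖lin g e‖ ≤ ‖x‖ := by
    have h2 : wedge (lin g x) (lin g e) =
        wedge (lin g x) (circ g ⟨e, by simp [he]⟩ : S1) * ‖lin g e‖ := by
      have := circ_smul_eq g ⟨e, by simp [he]⟩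
      simp only at this
      conv_lhs => rw [this]
      simp only [wedge, Complex.mul_re, Complex.mul_im, Complex.ofReal_re, Complex.ofReal_im]
      ring
    have h3 : |wedge (lin g x) (lin g e)| ≤ ‖x‖ := by
      rw [wedge_lin]
      have := abs_wedge_le x e
      rwa [he, mul_one] at this
    rw [h2, abs_mul, abs_of_pos hc'] at h3
    exact h3
  have h4 : |wedge (lin g x) (circ g ⟨e, by simp [he]⟩ : S1)| * nrm g ≤
      |wedge (lin g x) (circ g ⟨e, by simp [he]⟩ : S1)| * (2 * ‖lin g e‖) :=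
    mul_le_mul_of_nonneg_left h (abs_nonneg _)
  linarith

lemma exists_y (g : SL(2, ℝ)) : ∃ y : S1, ‖lin g y‖ * nrm g ≤ 2 := by
  obtain ⟨e, he, h⟩ := exists_col g⁻¹
  rw [nrm_inv] at h
  have he0 : e ≠ 0 := by intro h0; simp [h0] at he
  have hc : lin g⁻¹ e ≠ 0 := lin_ne_zero he0
  have hc' : 0 < ‖lin g⁻¹ e‖ := norm_pos_iff.2 hc
  refine ⟨circ g⁻¹ ⟨e, by simp [he]⟩, ?_⟩
  have h1 : ‖lin g (circ g⁻¹ ⟨e, by simp [he]⟩ : S1)‖ * ‖lin g⁻¹ e‖ = 1 := by
    have h2 := circ_smul_eq g⁻¹ ⟨e, by simp [he]⟩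
    simp only at h2
    have h3 := congrArg (lin g) h2
    rw [lin_lin_inv, lin_smul] at h3
    have h4 := congrArg norm h3
    rw [norm_mul, Complex.norm_real, norm_norm] at h4
    linarith [h4, he]
  have h5 : ‖lin g (circ g⁻¹ ⟨e, by simp [he]⟩ : S1)‖ * nrm g ≤
      ‖lin g (circ g⁻¹ ⟨e, by simp [he]⟩ : S1)‖ * (2 * ‖lin g⁻¹ e‖) :=
    mul_le_mul_of_nonneg_left h (norm_nonneg _)
  linarith

/-- choice of the expanding direction -/
def uu (g : SL(2, ℝ)) : S1 := (exists_u g).choose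
/-- choice of the contracted direction -/
def yy (g : SL(2, ℝ)) : S1 := (exists_y g).choose

lemma uu_spec (g : SL(2, ℝ)) (x : ℂ) : |wedge (lin g x) (uu g)| * nrm g ≤ 2 * ‖x‖ :=
  (exists_u g).choose_spec x

lemma yy_spec (g : SL(2, ℝ)) : ‖lin g (yy g)‖ * nrm g ≤ 2 := (exists_y g).choose_spec

lemma expand (g : SL(2, ℝ)) (x : ℂ) : |wedge x (yy g)| * nrm g ≤ 2 * ‖lin g x‖ := by
  rw [← wedge_lin g]
  have h1 := abs_wedge_le (lin g x) (lin g (yy g))
  have h2 := yy_spec g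
  have h3 : |wedge (lin g x) (lin g (yy g))| * nrm g ≤ ‖lin g x‖ * ‖lin g (yy g)‖ * nrm g :=
    mul_le_mul_of_nonneg_right h1 (nrm_nonneg g)
  have h4 : ‖lin g x‖ * ‖lin g (yy g)‖ * nrm g = ‖lin g x‖ * (‖lin g (yy g)‖ * nrm g) := by ring
  have h5 : ‖lin g x‖ * (‖lin g (yy g)‖ * nrm g) ≤ ‖lin g x‖ * 2 :=
    mul_le_mul_of_nonneg_left h2 (norm_nonneg _)
  linarith

/-- vectors in the cone are expanded by elements of the class -/
lemma expand_cone {g : SL(2, ℝ)} {x : ℂ} {y₀ : S1} {η : ℝ} (hx : ‖x‖ = 1)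
    (hxy : η ≤ |wedge x y₀|) (hy : ‖(yy g : ℂ) - y₀‖ ≤ η / 2) :
    η / 2 ≤ |wedge x (yy g)| ∧ η * nrm g ≤ 4 * ‖lin g x‖ := by
  have h1 : η / 2 ≤ |wedge x (yy g)| := by
    have h2 : wedge x y₀ = wedge x (yy g) - wedge x ((yy g : ℂ) - y₀) := by
      rw [wedge_sub_right]; ring
    have h3 : |wedge x ((yy g : ℂ) - y₀)| ≤ η / 2 := by
      have := abs_wedge_le x ((yy g : ℂ) - y₀)
      rw [hx, one_mul] at this
      linarith
    have h4 : |wedge x y₀| ≤ |wedge x (yy g)| + |wedge x ((yy g : ℂ) - y₀)| := by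
      rw [h2]; exact abs_sub _ _
    linarith
  refine ⟨h1, ?_⟩
  have h2 := expand g x
  have h3 : η / 2 * nrm g ≤ |wedge x (yy g)| * nrm g :=
    mul_le_mul_of_nonneg_right h1 (nrm_nonneg g)
  linarith

/-- the class maps the cone into its interior -/
lemma cone_incl {b g : SL(2, ℝ)} {x : ℂ} {x₀ y₀ : S1} {η w₀ : ℝ} (hη : 0 < η)
    (hw : |wedge (lin b x₀) y₀| = w₀) (hηw : η * (4 * nrm b) = w₀)
    (hx : ‖x‖ = 1) (hxy : η ≤ |wedge x y₀|) (hy : ‖(yy g : ℂ) - y₀‖ ≤ η / 2)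
    (hu : ‖(uu g : ℂ) - x₀‖ ≤ η / 2) (hg : 4 / η ≤ nrm g) :
    η * ‖lin (b * g) x‖ < |wedge (lin (b * g) x) y₀| := by
  obtain ⟨h1, h2⟩ := expand_cone hx hxy hy
  have hb := nrm_pos b
  have hgp := nrm_pos g
  have hgx : 0 < ‖lin g x‖ := by
    have : 0 < η * nrm g := mul_pos hη hgp
    linarith
  -- lower bound of the wedge
  have e1 : wedge (lin (b * g) x) y₀ = wedge (lin g x) (lin b⁻¹ y₀) := by
    rw [lin_mul]
    conv_lhs => rw [← lin_lin_inv b (y₀ : ℂ)]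
    rw [wedge_lin]
  have e2 : |wedge (uu g : ℂ) (lin b⁻¹ y₀)| = |wedge (lin b (uu g)) y₀| := by
    conv_rhs => rw [← lin_lin_inv b (y₀ : ℂ)]
    rw [wedge_lin]
  have h3 := wedge_lower (lin g x) (uu g) (lin b⁻¹ y₀) (S1_norm _)
  rw [← e1, e2] at h3
  have h4 : ‖lin b⁻¹ (y₀ : ℂ)‖ ≤ nrm b := by
    have := norm_lin_le b⁻¹ (y₀ : ℂ)
    rwa [nrm_inv, S1_norm, mul_one] at this
  have h5 : w₀ - nrm b * (η / 2) ≤ |wedge (lin b (uu g)) y₀| := by
    have e3 : wedge (lin b (uu g)) y₀ = wedge (lin b x₀) y₀ +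
        wedge (lin b ((uu g : ℂ) - x₀)) y₀ := by
      rw [lin_sub, wedge_sub_left]; ring
    have h6 : |wedge (lin b ((uu g : ℂ) - x₀)) y₀| ≤ nrm b * (η / 2) := by
      have h7 := abs_wedge_le (lin b ((uu g : ℂ) - x₀)) y₀
      rw [S1_norm, mul_one] at h7
      have h8 := norm_lin_le b ((uu g : ℂ) - x₀)
      have h9 : nrm b * ‖(uu g : ℂ) - x₀‖ ≤ nrm b * (η / 2) :=
        mul_le_mul_of_nonneg_left hu hb.le
      linarith
    have h7 : |wedge (lin b x₀) y₀| ≤ |wedge (lin b (uu g)) y₀| +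
        |wedge (lin b ((uu g : ℂ) - x₀)) y₀| := by
      have : wedge (lin b x₀) y₀ = wedge (lin b (uu g)) y₀ -
        wedge (lin b ((uu g : ℂ) - x₀)) y₀ := by rw [e3]; ring
      rw [this]; exact abs_sub _ _
    linarith
  have h6 := uu_spec g x
  rw [hx, mul_one] at h6
  -- 2 |z∧u| |w| ≤ 4 nrm b / nrm g ≤ ‖gx‖ * nrm b * η
  have h7 : 2 * |wedge (lin g x) (uu g)| * ‖lin b⁻¹ (y₀ : ℂ)‖ ≤ ‖lin g x‖ * (nrm b * η) := by
    have h8 : |wedge (lin g x) (uu g)| * (4 / η) ≤ 2 :=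
      le_trans (mul_le_mul_of_nonneg_left hg (abs_nonneg _)) h6
    have h9 : |wedge (lin g x) (uu g)| ≤ η / 2 := by
      rw [mul_div_assoc', div_le_iff₀ hη] at h8
      linarith
    -- ‖gx‖ ≥ η nrm g / 4 ≥ 1
    have h10 : 1 ≤ ‖lin g x‖ := by
      have : 4 ≤ nrm g * η := by rwa [div_le_iff₀ hη] at hg
      linarith
    have h11 : 2 * |wedge (lin g x) (uu g)| * ‖lin b⁻¹ (y₀ : ℂ)‖ ≤ 2 * (η / 2) * nrm b :=
      mul_le_mul (by linarith) h4 (norm_nonneg _) (by positivity)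
    have h12 : nrm b * η ≤ ‖lin g x‖ * (nrm b * η) := by
      have : 0 < nrm b * η := by positivity
      nlinarith
    linarith
  have h8 : ‖lin g x‖ * (w₀ - nrm b * (η / 2)) ≤ ‖lin g x‖ * |wedge (lin b (uu g)) y₀| :=
    mul_le_mul_of_nonneg_left h5 hgx.le
  have h9 : ‖lin (b * g) x‖ ≤ nrm b * ‖lin g x‖ := by
    rw [lin_mul]; exact norm_lin_le _ _
  have h10 : η * ‖lin (b * g) x‖ ≤ η * (nrm b * ‖lin g x‖) :=
    mul_le_mul_of_nonneg_left h9 hη.le
  have h11 : 0 < ‖lin g x‖ * (nrm b * η) := by positivity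
  -- ‖gx‖ (4 η nrm b - nrm b η/2 - nrm b η) > η nrm b ‖gx‖
  rw [← hηw] at h8
  nlinarith

lemma parallel {a b : ℂ} (ha : ‖a‖ = 1) (h : wedge a b = 0) : b = ((ip a b : ℝ) : ℂ) * a := by
  have h1 : a.re ^ 2 + a.im ^ 2 = 1 := by rw [← sq_norm', ha]; norm_num
  simp only [wedge] at h
  apply Complex.ext
  · simp only [ip, Complex.mul_re, Complex.ofReal_re, Complex.ofReal_im]
    linear_combination (-b.re) * h1 - a.im * h
  · simp only [ip, Complex.mul_im, Complex.ofReal_re, Complex.ofReal_im]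
    linear_combination (-b.im) * h1 + a.re * h

/-- the radius outside of which images of the cone are disjoint -/
def R1 (η : ℝ) : ℝ := 2 * (2 / η * (8 / η + 4))

lemma disjoint_cone {b g g' : SL(2, ℝ)} {x x' : ℂ} {y₀ : S1} {η T : ℝ} (hη : 0 < η)
    (hx : ‖x‖ = 1) (hxy : η ≤ |wedge x y₀|) (hx' : ‖x'‖ = 1) (hxy' : η ≤ |wedge x' y₀|)
    (hy : ‖(yy g : ℂ) - y₀‖ ≤ η / 2) (hy' : ‖(yy g' : ℂ) - y₀‖ ≤ η / 2)
    (hT : 0 < T) (hg : T ≤ nrm g) (hg2 : nrm g ≤ 2 * T) (hg' : T ≤ nrm g')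
    (hg2' : nrm g' ≤ 2 * T) (hR : R1 η < nrm (g⁻¹ * g')) :
    wedge (lin (b * g) x) (lin (b * g') x') ≠ 0 := by
  intro h0
  apply absurd hR
  push Not
  rw [lin_mul, lin_mul, wedge_lin] at h0
  obtain ⟨h1, h2⟩ := expand_cone hx hxy hy
  obtain ⟨h1', h2'⟩ := expand_cone hx' hxy' hy'
  set h : SL(2, ℝ) := g⁻¹ * g' with hh
  have e1 : lin g' x' = lin g (lin h x') := by
    rw [← lin_mul, hh, mul_inv_cancel_left]
  rw [e1, wedge_lin] at h0
  have e2 := parallel hx h0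
  have h3 : ‖lin h x'‖ = |ip x (lin h x')| := by
    have := congrArg norm e2
    rwa [norm_mul, Complex.norm_real, hx, mul_one, Real.norm_eq_abs] at this
  have h4 : ‖lin g' x'‖ = ‖lin h x'‖ * ‖lin g x‖ := by
    rw [e1]
    conv_lhs => rw [e2]
    rw [lin_smul, norm_mul, Complex.norm_real, Real.norm_eq_abs, ← h3]
  have h5 : ‖lin g' x'‖ ≤ nrm g' := by
    have := norm_lin_le g' x'
    rwa [hx', mul_one] at this
  have h6 : ‖lin h x'‖ ≤ 8 / η := by
    rw [le_div_iff₀ hη]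
    have h7 : ‖lin h x'‖ * (η * T) ≤ ‖lin h x'‖ * (4 * ‖lin g x‖) := by
      apply mul_le_mul_of_nonneg_left _ (norm_nonneg _)
      have : η * T ≤ η * nrm g := mul_le_mul_of_nonneg_left hg hη.le
      linarith
    have h8 : ‖lin h x'‖ * (4 * ‖lin g x‖) ≤ 8 * T := by
      have : ‖lin h x'‖ * (4 * ‖lin g x‖) = 4 * ‖lin g' x'‖ := by rw [h4]; ring
      rw [this]; linarith
    have h9 : (‖lin h x'‖ * η) * T ≤ 8 * T := by linarith
    exact le_of_mul_le_mul_right h9 hT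
  have h7 : ‖lin h (yy g' : ℂ)‖ ≤ 4 := by
    have e3 : lin h (yy g' : ℂ) = lin g⁻¹ (lin g' (yy g')) := by rw [hh, lin_mul]
    have h8 : ‖lin h (yy g' : ℂ)‖ ≤ nrm g * ‖lin g' (yy g')‖ := by
      rw [e3]
      have := norm_lin_le g⁻¹ (lin g' (yy g'))
      rwa [nrm_inv] at this
    have h9 := yy_spec g'
    have h10 : ‖lin g' (yy g' : ℂ)‖ * T ≤ 2 :=
      le_trans (mul_le_mul_of_nonneg_left hg' (norm_nonneg _)) h9
    have h11 : nrm g * ‖lin g' (yy g' : ℂ)‖ ≤ 2 * T * ‖lin g' (yy g' : ℂ)‖ :=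
      mul_le_mul_of_nonneg_right hg2 (norm_nonneg _)
    linarith
  have key : ∀ z : ℂ, ‖z‖ = 1 → ‖lin h z‖ ≤ 2 / η * (8 / η + 4) := by
    intro z hz
    have e4 : ((wedge x' (yy g') : ℝ) : ℂ) * z =
        ((wedge z (yy g') : ℝ) : ℂ) * x' - ((wedge z x' : ℝ) : ℂ) * (yy g' : ℂ) := by
      apply Complex.ext
      · simp only [wedge, Complex.mul_re, Complex.sub_re, Complex.ofReal_re, Complex.ofReal_im]
        ring
      · simp only [wedge, Complex.mul_im, Complex.sub_im, Complex.ofReal_re, Complex.ofReal_im]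
        ring
    have e5 := congrArg (lin h) e4
    rw [lin_smul, lin_sub, lin_smul, lin_smul] at e5
    have e6 := congrArg norm e5
    rw [norm_mul, Complex.norm_real, Real.norm_eq_abs] at e6
    have h8 : ‖((wedge z (yy g') : ℝ) : ℂ) * lin h x' -
        ((wedge z x' : ℝ) : ℂ) * lin h (yy g' : ℂ)‖ ≤ 8 / η + 4 := by
      refine le_trans (norm_sub_le _ _) ?_
      rw [norm_mul, norm_mul, Complex.norm_real, Complex.norm_real, Real.norm_eq_abs,
        Real.norm_eq_abs]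
      have h9 : |wedge z (yy g')| ≤ 1 := by
        have := abs_wedge_le z (yy g')
        rwa [hz, S1_norm, mul_one] at this
      have h10 : |wedge z x'| ≤ 1 := by
        have := abs_wedge_le z x'
        rwa [hz, hx', mul_one] at this
      have h11 : |wedge z (yy g')| * ‖lin h x'‖ ≤ 1 * (8 / η) :=
        mul_le_mul h9 h6 (norm_nonneg _) zero_le_one
      have h12 : |wedge z x'| * ‖lin h (yy g' : ℂ)‖ ≤ 1 * 4 :=
        mul_le_mul h10 h7 (norm_nonneg _) zero_le_one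
      linarith
    have h9 : η / 2 * ‖lin h z‖ ≤ 8 / η + 4 := by
      have : η / 2 * ‖lin h z‖ ≤ |wedge x' (yy g')| * ‖lin h z‖ :=
        mul_le_mul_of_nonneg_right h1' (norm_nonneg _)
      linarith
    have h10 : ‖lin h z‖ = 2 / η * (η / 2 * ‖lin h z‖) := by field_simp
    rw [h10]
    exact mul_le_mul_of_nonneg_left h9 (by positivity)
  obtain ⟨e, he, h8⟩ := exists_col h
  have h9 := key e he
  unfold R1
  linarith

/-! ### finiteness of balls -/

lemma abs_entry_le (g : SL(2, ℝ)) (i j : Fin 2) : |g i j| ≤ nrm g := by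
  have h := nrm_sq g
  apply abs_le_of_sq_le_sq _ (nrm_nonneg g)
  rw [h]
  fin_cases i <;> fin_cases j <;> simp <;>
    nlinarith [sq_nonneg (g 0 0), sq_nonneg (g 0 1), sq_nonneg (g 1 0), sq_nonneg (g 1 1)]

lemma finite_ball {ε : ℝ} {Γ : Subgroup SL(2, ℝ)} (hd : Disc ε Γ) (R : ℝ) :
    {g : SL(2, ℝ) | g ∈ Γ ∧ nrm g ≤ R}.Finite := by
  by_cases hR : R < 1
  · have : {g : SL(2, ℝ) | g ∈ Γ ∧ nrm g ≤ R} = ∅ := by
      ext g
      simp only [Set.mem_ofPred_eq, Set.mem_empty_iff_false, iff_false, not_and, not_le]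
      intro _
      exact lt_of_lt_of_le hR (one_le_nrm g)
    rw [this]; exact Set.finite_empty
  push Not at hR
  set δ : ℝ := ε / (2 * R) with hδ
  have hε := hd.1
  have hδ0 : 0 < δ := by positivity
  let F : SL(2, ℝ) → (Fin 2 → Fin 2 → ℤ) := fun g i j => ⌊g i j / δ⌋
  refine Set.Finite.of_injOn (f := F)
    (t := Set.pi Set.univ fun _ : Fin 2 => Set.pi Set.univ fun _ : Fin 2 =>
      Set.Icc (⌊-R / δ⌋) (⌊R / δ⌋)) ?_ ?_ ?_
  · intro g hg
    simp only [Set.mem_pi, Set.mem_univ, forall_true_left, Set.mem_Icc]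
    intro i j
    have h1 := abs_le.1 (le_trans (abs_entry_le g i j) hg.2)
    constructor
    · apply Int.floor_mono
      exact div_le_div_of_nonneg_right h1.1 hδ0.le
    · apply Int.floor_mono
      exact div_le_div_of_nonneg_right h1.2 hδ0.le
  · intro g hg g' hg' hF
    have h1 : ∀ i j, |g' i j - g i j| < δ := by
      intro i j
      have h2 : ⌊g i j / δ⌋ = ⌊g' i j / δ⌋ := congrFun (congrFun hF i) j
      have h3 := Int.abs_sub_lt_one_of_floor_eq_floor h2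
      have h4 : g i j / δ - g' i j / δ = -((g' i j - g i j) / δ) := by ring
      rw [h4, abs_neg, abs_div, abs_of_pos hδ0, div_lt_one hδ0] at h3
      exact h3
    have h2 : g⁻¹ * g' = 1 := by
      apply hd.2 _ (mul_mem (inv_mem hg.1) hg'.1)
      intro i j
      have h3 : (1 : SL(2, ℝ)) i j = g⁻¹ i 0 * g 0 j + g⁻¹ i 1 * g 1 j := by
        rw [← mul_apply', inv_mul_cancel]
      rw [mul_apply', h3]
      have h4 : g⁻¹ i 0 * g' 0 j + g⁻¹ i 1 * g' 1 j - (g⁻¹ i 0 * g 0 j + g⁻¹ i 1 * g 1 j) =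
          g⁻¹ i 0 * (g' 0 j - g 0 j) + g⁻¹ i 1 * (g' 1 j - g 1 j) := by ring
      rw [h4]
      have h5 : ∀ k, |g⁻¹ i k| ≤ R := fun k => by
        have := abs_entry_le g⁻¹ i k
        rw [nrm_inv] at this
        exact le_trans this hg.2
      have hR0 : 0 < R := by linarith
      calc |g⁻¹ i 0 * (g' 0 j - g 0 j) + g⁻¹ i 1 * (g' 1 j - g 1 j)|
          ≤ |g⁻¹ i 0 * (g' 0 j - g 0 j)| + |g⁻¹ i 1 * (g' 1 j - g 1 j)| := abs_add_le _ _
        _ = |g⁻¹ i 0| * |g' 0 j - g 0 j| + |g⁻¹ i 1| * |g' 1 j - g 1 j| := by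
            rw [abs_mul, abs_mul]
        _ ≤ R * |g' 0 j - g 0 j| + R * |g' 1 j - g 1 j| :=
            add_le_add (mul_le_mul_of_nonneg_right (h5 0) (abs_nonneg _))
              (mul_le_mul_of_nonneg_right (h5 1) (abs_nonneg _))
        _ < R * δ + R * δ := add_lt_add (mul_lt_mul_of_pos_left (h1 0 j) hR0)
              (mul_lt_mul_of_pos_left (h1 1 j) hR0)
        _ = ε := by rw [hδ]; field_simp; ring
    exact (inv_mul_eq_one.1 h2)
  · exact Set.Finite.pi fun _ => Set.Finite.pi fun _ => Set.finite_Icc _ _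

end Lsc

end

end Pool.Agent.Helper97.Fuchs
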